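import Pool.Agent.H45.EGH.S1

/-!
# EGH, module COL
-/

set_option autoImplicit false

namespace Pool.EGH

open MvPolynomial

attribute [local instance] MvPolynomial.gradedAlgebra

namespace COLaux

variable {K : Type} [Field K] {N : ℕ}

theorem hc_mul {d i : ℕ} {f : PR K N} (hf : f ∈ fm K N d) (z : PR K N) :
    homogeneousComponent (i + d) (f * z) = f * homogeneousComponent i z := by
  have h := DirectSum.coe_decompose_mul_add_of_left_mem (homogeneousSubmodule (Fin N) K)
    (i := d) (j := i) (b := z) hf
  rw [add_comm i d]
  have h1 : ∀ (φ : PR K N) (j : ℕ),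
      ((DirectSum.decompose (homogeneousSubmodule (Fin N) K) φ) j : PR K N) =
        homogeneousComponent j φ := fun φ j => MvPolynomial.decomposition.decompose'_apply φ j
  rw [h1, h1] at h
  exact h

theorem hc_mul_lt {d i : ℕ} {f : PR K N} (hf : f ∈ fm K N d) (z : PR K N) (hid : i < d) :
    homogeneousComponent i (f * z) = 0 := by
  have h := DirectSum.coe_decompose_mul_of_left_mem_of_not_le (homogeneousSubmodule (Fin N) K)
    (n := i) (b := z) hf (by omega)
  have h1 : ∀ (φ : PR K N) (j : ℕ),
      ((DirectSum.decompose (homogeneousSubmodule (Fin N) K) φ) j : PR K N) =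
        homogeneousComponent j φ := fun φ j => MvPolynomial.decomposition.decompose'_apply φ j
  rw [h1] at h
  exact h

theorem hc_self {i : ℕ} {x : PR K N} (hx : x ∈ fm K N i) : homogeneousComponent i x = x := by
  rw [homogeneousComponent_of_mem hx, if_pos rfl]

end COLaux

open COLaux in
theorem t_col (hFIN : FINStmt) : COLStmt := by
  intro K _ N d I f hI hfd
  constructor
  · intro i
    have := hFIN K N i
    have := hFIN K N (i + d)
    set A : Submodule K (PR K N) := I.restrictScalars K ⊓ fm K N (i + d) with hA
    set B : Submodule K (PR K N) := (I ⊔ Ideal.span {f}).restrictScalars K ⊓ fm K N (i + d)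
      with hB
    set C : Submodule K (PR K N) := (clI I f).restrictScalars K ⊓ fm K N i with hC
    have hAB : A ≤ B := inf_le_inf_right _ (fun x hx => (le_sup_left : I ≤ _) hx)
    have hBM : B ≤ fm K N (i + d) := inf_le_right
    have hCF : C ≤ fm K N i := inf_le_right
    have hBf : Module.Finite K B := Submodule.finiteDimensional_of_le hBM
    have hCf : Module.Finite K C := Submodule.finiteDimensional_of_le hCF
    have hAf : Module.Finite K A := Submodule.finiteDimensional_of_le (hAB.trans hBM)
    let g : ↥(fm K N i) →ₗ[K] PR K N ⧸ A :=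
      A.mkQ.comp ((LinearMap.mulLeft K f).comp (fm K N i).subtype)
    let q : ↥B →ₗ[K] PR K N ⧸ A := A.mkQ.comp B.subtype
    have hrange : LinearMap.range g = LinearMap.range q := by
      apply le_antisymm
      · rintro _ ⟨z, rfl⟩
        refine ⟨⟨f * (z : PR K N), ?_, ?_⟩, rfl⟩
        · exact Ideal.mul_mem_right _ _ ((le_sup_right : Ideal.span {f} ≤ _)
            (Ideal.mem_span_singleton_self f))
        · have := SetLike.mul_mem_graded (A := homogeneousSubmodule (Fin N) K) hfd z.2
          rw [add_comm i d]
          exact this
      · rintro _ ⟨⟨x, hx1, hx2⟩, rfl⟩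
        obtain ⟨j, hj, y, hy, hxy⟩ := Submodule.mem_sup.1 hx1
        obtain ⟨z, rfl⟩ := Ideal.mem_span_singleton'.1 hy
        refine ⟨⟨homogeneousComponent i z, homogeneousComponent_mem i z⟩, ?_⟩
        have h1 : x = homogeneousComponent (i + d) j + f * homogeneousComponent i z := by
          rw [← hc_self hx2, ← hxy, map_add, mul_comm z f, hc_mul hfd]
        change A.mkQ (f * homogeneousComponent i z) = A.mkQ x
        rw [h1, map_add]
        have h2 : A.mkQ (homogeneousComponent (i + d) j) = 0 := by
          rw [Submodule.mkQ_apply, Submodule.Quotient.mk_eq_zero]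
          exact ⟨hI j hj _, homogeneousComponent_mem _ _⟩
        rw [h2, zero_add]
    have hkg : Module.finrank K ↥(LinearMap.ker g) = Module.finrank K C := by
      have h1 : LinearMap.ker g = C.comap (fm K N i).subtype := by
        ext z
        rw [LinearMap.mem_ker, Submodule.mem_comap]
        change A.mkQ (f * (z : PR K N)) = 0 ↔ _
        rw [Submodule.mkQ_apply, Submodule.Quotient.mk_eq_zero]
        constructor
        · rintro ⟨h1, -⟩
          exact ⟨h1, z.2⟩
        · rintro ⟨h1, -⟩
          refine ⟨h1, ?_⟩
          have := SetLike.mul_mem_graded (A := homogeneousSubmodule (Fin N) K) hfd z.2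
          rw [add_comm i d]
          exact this
      rw [h1]
      exact (Submodule.comapSubtypeEquivOfLe hCF).finrank_eq
    have hkq : Module.finrank K ↥(LinearMap.ker q) = Module.finrank K A := by
      have h1 : LinearMap.ker q = A.comap B.subtype := by
        ext z
        rw [LinearMap.mem_ker, Submodule.mem_comap]
        change A.mkQ (z : PR K N) = 0 ↔ _
        rw [Submodule.mkQ_apply, Submodule.Quotient.mk_eq_zero]
        rfl
      rw [h1]
      exact (Submodule.comapSubtypeEquivOfLe hAB).finrank_eq
    have e1 := LinearMap.finrank_range_add_finrank_ker g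
    have e2 := LinearMap.finrank_range_add_finrank_ker q
    rw [hkg, hrange] at e1
    rw [hkq] at e2
    have e3 : Module.finrank K B ≤ Module.finrank K (fm K N (i + d)) :=
      Submodule.finrank_mono hBM
    have e4 : Module.finrank K C ≤ Module.finrank K (fm K N i) :=
      Submodule.finrank_mono hCF
    have e5 : Module.finrank K A ≤ Module.finrank K B :=
      Submodule.finrank_mono hAB
    change (Module.finrank K ↥(fm K N (i + d)) - Module.finrank K ↥B) +
      (Module.finrank K ↥(fm K N i) - Module.finrank K ↥C) =
      Module.finrank K ↥(fm K N (i + d)) - Module.finrank K ↥A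
    omega
  · intro i hid
    have h1 : ((I ⊔ Ideal.span {f}).restrictScalars K ⊓ fm K N i : Submodule K (PR K N)) =
        I.restrictScalars K ⊓ fm K N i := by
      apply le_antisymm
      · rintro x ⟨hx1, hx2⟩
        obtain ⟨j, hj, y, hy, hxy⟩ := Submodule.mem_sup.1 hx1
        obtain ⟨z, rfl⟩ := Ideal.mem_span_singleton'.1 hy
        refine ⟨?_, hx2⟩
        have h1 : x = homogeneousComponent i j := by
          rw [← hc_self hx2, ← hxy, map_add, mul_comm z f, hc_mul_lt hfd z hid, add_zero]
        rw [h1]
        exact hI j hj _
      · exact inf_le_inf_right _ (fun x hx => (le_sup_left : I ≤ _) hx)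
    unfold hf
    rw [h1]

end Pool.EGH
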