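import Pool.Agent.H45.EGH.S3
import Pool.Agent.H50.EGH.COL

/-!
# EGH, module ANI
-/

set_option autoImplicit false

namespace Pool.EGH

open MvPolynomial

namespace ANIaux

variable {K : Type} [Field K] {N : ℕ}

open COLaux

/-- the dimension of the image of a piece of an ideal. -/
theorem finrank_im {Q J : Ideal (PR K N)} (hQJ : Q ≤ J) (j : ℕ)
    (hfin : Module.Finite K ↥(fm K N j)) :
    Module.finrank K ↥(im Q J j) +
      Module.finrank K ↥(Q.restrictScalars K ⊓ fm K N j : Submodule K (PR K N)) =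
      Module.finrank K ↥(J.restrictScalars K ⊓ fm K N j : Submodule K (PR K N)) := by
  set B : Submodule K (PR K N) := J.restrictScalars K ⊓ fm K N j with hB
  set A : Submodule K (PR K N) := Q.restrictScalars K ⊓ fm K N j with hA
  have hAB : A ≤ B := inf_le_inf_right _ hQJ
  have hBf : Module.Finite K B := Submodule.finiteDimensional_of_le
    (inf_le_right : B ≤ fm K N j)
  let g : ↥B →ₗ[K] PR K N ⧸ Q := (Ideal.Quotient.mkₐ K Q).toLinearMap.comp B.subtype
  have e1 := LinearMap.finrank_range_add_finrank_ker g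
  have h1 : LinearMap.range g = im Q J j := by
    unfold im
    rw [LinearMap.range_comp, Submodule.range_subtype]
  have h2 : LinearMap.ker g = A.comap B.subtype := by
    ext z
    rw [LinearMap.mem_ker, Submodule.mem_comap]
    change Ideal.Quotient.mk Q (z : PR K N) = 0 ↔ _
    rw [Ideal.Quotient.eq_zero_iff_mem]
    constructor
    · intro h
      exact ⟨h, z.2.2⟩
    · rintro ⟨h, -⟩
      exact h
  rw [h1, h2, (Submodule.comapSubtypeEquivOfLe hAB).finrank_eq] at e1
  exact e1

end ANIaux

open ANIaux COLaux in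
theorem t_ani (hFIN : FINStmt) (hHGA : HGAStmt) (hANN : ANNStmt) (hGPD : GPDStmt) :
    ANIStmt := by
  intro K _ _ N n Q hQ i j m hijm V hV
  have hHQ : Hg Q := by
    obtain ⟨k, -, hk⟩ := hQ
    exact (hHGA K N).2.2.2 k n Q hk
  have hQI : Q ≤ anI Q V := by
    intro f hf v _
    rw [Ideal.Quotient.eq_zero_iff_mem.2 hf, zero_mul]
  have hmem : ∀ (f h : PR K N), Ideal.Quotient.mk Q f * Ideal.Quotient.mk Q h = 0 ↔
      h * f ∈ Q := by
    intro f h
    rw [← map_mul, Ideal.Quotient.eq_zero_iff_mem, mul_comm]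
  refine ⟨?_, hQI, ?_⟩
  · intro f hf d v hv
    obtain ⟨h, hh, hhv⟩ := hV hv
    have hhv' : Ideal.Quotient.mk Q h = v := hhv
    have h1 := hf v hv
    rw [← hhv', hmem] at h1 ⊢
    have h2 := hHQ _ h1 (d + i)
    rw [hc_mul hh] at h2
    exact h2
  · have hfin := hFIN K N j
    have e1 := finrank_im hQI j hfin
    have h1 : im Q (anI Q V) j = ann Q j V := by
      apply le_antisymm
      · rintro _ ⟨f, ⟨hf1, hf2⟩, rfl⟩
        refine ⟨⟨f, hf2, rfl⟩, fun v hv => hf1 v hv⟩
      · rintro y ⟨⟨f, hf, hfy⟩, hy⟩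
        have hfy' : Ideal.Quotient.mk Q f = y := hfy
        refine ⟨f, ⟨fun v hv => ?_, hf⟩, hfy⟩
        rw [hfy']
        exact hy v hv
    rw [h1] at e1
    have e2 := hANN K N n Q hQ i j m hijm V hV
    have e3 := (hGPD K N Q).2 n hQ j
    have e4 := (hGPD K N Q).1 hHQ j
    rw [e3] at e4
    have e5 : Module.finrank K ↥((anI Q V).restrictScalars K ⊓ fm K N j :
        Submodule K (PR K N)) ≤ Module.finrank K ↥(fm K N j) :=
      Submodule.finrank_mono inf_le_right
    have e6 : n.choose j = Module.finrank K ↥(fm K N j) -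
        Module.finrank K ↥(Q.restrictScalars K ⊓ fm K N j : Submodule K (PR K N)) := e4
    change Module.finrank K ↥(fm K N j) -
        Module.finrank K ↥((anI Q V).restrictScalars K ⊓ fm K N j : Submodule K (PR K N)) = _
    omega

end Pool.EGH
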