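import Pool.Agent.H45.EGH.S3
import Pool.Agent.H50.EGH.COL

/-!
# EGH, module QE3
-/

set_option autoImplicit false

namespace Pool.EGH

open MvPolynomial

namespace QE3aux

variable {K : Type} [Field K] {N : ℕ}

open COLaux

/-- Forms of the ideal generated by a space of forms. -/
theorem mem_upI {Q : Ideal (PR K N)} (hQ : Hg Q) {e : ℕ} {V : Submodule K (PR K N ⧸ Q)}
    (hV : V ≤ gp Q e) (i : ℕ) {f : PR K N} (hf : f ∈ fm K N (i + e)) :
    f ∈ upI Q V ↔ Ideal.Quotient.mk Q f ∈ gp Q i * V := by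
  constructor
  · intro h
    have h1 : ∃ g : PR K N, Ideal.Quotient.mk Q g = Ideal.Quotient.mk Q f ∧
        ∀ m, Ideal.Quotient.mk Q (homogeneousComponent (m + e) g) ∈ gp Q m * V := by
      have h2 : Ideal.Quotient.mk Q f ∈ Ideal.span (V : Set (PR K N ⧸ Q)) := h
      generalize Ideal.Quotient.mk Q f = x at h2 ⊢
      induction h2 using Submodule.closure_induction with
      | zero => exact ⟨0, map_zero _, fun m => by rw [map_zero, map_zero]; exact zero_mem _⟩
      | add x y _ _ hx hy =>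
        obtain ⟨g, hg1, hg2⟩ := hx
        obtain ⟨g', hg1', hg2'⟩ := hy
        refine ⟨g + g', by rw [map_add, hg1, hg1'], fun m => ?_⟩
        rw [map_add, map_add]
        exact add_mem (hg2 m) (hg2' m)
      | smul_mem r x hx =>
        obtain ⟨r0, rfl⟩ := Ideal.Quotient.mk_surjective r
        obtain ⟨h, hh, hhx⟩ := hV hx
        have hhx' : Ideal.Quotient.mk Q h = x := hhx
        refine ⟨h * r0, ?_, fun m => ?_⟩
        · rw [map_mul, hhx', smul_eq_mul, mul_comm]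
        · rw [hc_mul hh, map_mul, hhx', mul_comm]
          exact Submodule.mul_mem_mul ⟨homogeneousComponent m r0,
            homogeneousComponent_mem m r0, rfl⟩ hx
    obtain ⟨g, hg1, hg2⟩ := h1
    have h3 := hg2 i
    have h4 : Ideal.Quotient.mk Q (homogeneousComponent (i + e) g) = Ideal.Quotient.mk Q f := by
      rw [Ideal.Quotient.mk_eq_mk_iff_sub_mem] at hg1 ⊢
      have h5 := hQ _ hg1 (i + e)
      rw [map_sub, hc_self hf] at h5
      exact h5
    rw [h4] at h3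
    exact h3
  · intro h
    have h1 : gp Q i * V ≤ (Ideal.span (V : Set (PR K N ⧸ Q))).restrictScalars K := by
      rw [Submodule.mul_le]
      intro a _ b hb
      exact Ideal.mul_mem_left _ a (Ideal.subset_span hb)
    exact h1 h

theorem upI_mono {Q : Ideal (PR K N)} {V W : Submodule K (PR K N ⧸ Q)} (h : V ≤ W) :
    upI Q V ≤ upI Q W :=
  Ideal.comap_mono (Ideal.span_mono h)

theorem mem_upI_of {Q : Ideal (PR K N)} {V : Submodule K (PR K N ⧸ Q)} {l : PR K N}
    (h : Ideal.Quotient.mk Q l ∈ V) : l ∈ upI Q V :=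
  Ideal.subset_span (s := (V : Set (PR K N ⧸ Q))) h

/-- a linear form which is not in `V` is not in the ideal. -/
theorem not_mem_upI {Q : Ideal (PR K N)} (hQ : Hg Q) {V : Submodule K (PR K N ⧸ Q)}
    (hV : V ≤ gp Q 1) (h0 : gp Q 0 * V = V) {l : PR K N} (hl : l ∈ fm K N 1)
    (hlV : Ideal.Quotient.mk Q l ∉ V) : l ∉ upI Q V := by
  intro h
  rw [mem_upI hQ hV 0 (by simpa using hl), h0] at h
  exact hlV h

/-- a complete intersection is generated in degrees one and two. -/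
theorem mci_le {k r : ℕ} {J : Ideal (PR K N)} (h : MCI k r J) (U : Ideal (PR K N))
    (h1 : ∀ f ∈ J, f ∈ fm K N 1 → f ∈ U) (h2 : ∀ f ∈ J, f ∈ fm K N 2 → f ∈ U) : J ≤ U := by
  induction h with
  | zero => exact bot_le
  | @lin k J l hJ hl hr ih =>
    refine sup_le (ih (fun f hf hf' => h1 f (le_sup_left (a := J) hf) hf')
      (fun f hf hf' => h2 f (le_sup_left (a := J) hf) hf')) ?_
    rw [Ideal.span_singleton_le_iff_mem]
    exact h1 l ((le_sup_right : Ideal.span {l} ≤ J ⊔ _) (Ideal.mem_span_singleton_self l)) hl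
  | @quad k r J q hJ hq hr ih =>
    refine sup_le (ih (fun f hf hf' => h1 f (le_sup_left (a := J) hf) hf')
      (fun f hf hf' => h2 f (le_sup_left (a := J) hf) hf')) ?_
    rw [Ideal.span_singleton_le_iff_mem]
    exact h2 q ((le_sup_right : Ideal.span {q} ≤ J ⊔ _) (Ideal.mem_span_singleton_self q)) hq

end QE3aux

open QE3aux in
theorem t_qe3 (hQUO : QUOStmt) (hGPM : GPMStmt) (hUPI : UPIStmt) (hMON : MONStmt)
    (hCHF : CHFStmt) (hHGA : HGAStmt) : QE3Stmt := by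
  intro K _ _ Q C hQ hC hC3 hC12
  have hHQ : Hg Q := by
    obtain ⟨k, -, hk⟩ := hQ
    exact (hHGA K 6).2.2.2 k 6 Q hk
  refine ⟨?_, fun i f hf => mem_upI hHQ hC i hf⟩
  obtain ⟨hU1, hU2, hU3, hU4⟩ := hUPI K 6 6 1 Q C hQ hC
  obtain ⟨-, -, hg0, -⟩ := hGPM K 6 Q
  rw [hC3] at hU3
  have hU4' : hf (upI Q C) 2 + 12 = Nat.choose 6 2 := by
    have h := hU4
    unfold dg at h
    rw [hC12] at h
    exact h
  have hch1 : Nat.choose 6 1 = 6 := by decide
  have hch2 : Nat.choose 6 2 = 15 := by decide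
  have : Module.Finite K C := Module.finite_of_finrank_pos (by rw [hC3]; norm_num)
  -- a basis of `C`
  let b := Module.finBasisOfFinrankEq K C hC3
  have hbC : ∀ j, (b j : PR K 6 ⧸ Q) ∈ C := fun j => (b j).2
  have hex : ∀ j, ∃ l ∈ fm K 6 1, Ideal.Quotient.mk Q l = (b j : PR K 6 ⧸ Q) :=
    fun j => hC (hbC j)
  choose l hl hlb using hex
  have hlin : LinearIndependent K (fun j => (b j : PR K 6 ⧸ Q)) :=
    b.linearIndependent.map' C.subtype (Submodule.ker_subtype C)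
  let V1 : Submodule K (PR K 6 ⧸ Q) := Submodule.span K {(b 0 : PR K 6 ⧸ Q)}
  let V2 : Submodule K (PR K 6 ⧸ Q) :=
    Submodule.span K {(b 0 : PR K 6 ⧸ Q), (b 1 : PR K 6 ⧸ Q)}
  have hV1C : V1 ≤ C := by
    rw [Submodule.span_le]
    rintro x rfl
    exact hbC 0
  have hV2C : V2 ≤ C := by
    rw [Submodule.span_le]
    rintro x (rfl | rfl)
    · exact hbC 0
    · exact hbC 1
  have hV12 : V1 ≤ V2 := Submodule.span_mono (by intro x hx; exact Or.inl hx)
  have h1V1 : (b 1 : PR K 6 ⧸ Q) ∉ V1 := by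
    intro h
    have := linearIndependent_iff_notMem_span.1 hlin 1
    exact this (Submodule.span_mono (by
      rintro x rfl
      exact ⟨0, ⟨trivial, by simp⟩, rfl⟩) h)
  have h2V2 : (b 2 : PR K 6 ⧸ Q) ∉ V2 := by
    intro h
    have := linearIndependent_iff_notMem_span.1 hlin 2
    exact this (Submodule.span_mono (by
      rintro x (rfl | rfl)
      · exact ⟨0, ⟨trivial, by simp⟩, rfl⟩
      · exact ⟨1, ⟨trivial, by simp⟩, rfl⟩) h)
  have hl0 : l 0 ∉ Q := by
    intro h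
    have h1 : (b 0 : PR K 6 ⧸ Q) = 0 := by
      rw [← hlb 0, Ideal.Quotient.eq_zero_iff_mem]
      exact h
    exact hlin.ne_zero 0 h1
  obtain ⟨Q1, hQ1, hlQ1, hQ1le⟩ := hQUO K 6 5 Q (l 0) hQ (hl 0) hl0
  have hQU : ∀ V : Submodule K (PR K 6 ⧸ Q), Q ≤ upI Q V := fun V f hf => by
    change Ideal.Quotient.mk Q f ∈ Ideal.span _
    rw [Ideal.Quotient.eq_zero_iff_mem.2 hf]
    exact zero_mem _
  have hQ1U : Q1 ≤ upI Q V1 := by
    refine hQ1le.trans (sup_le (hQU V1) ?_)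
    rw [Ideal.span_singleton_le_iff_mem]
    refine mem_upI_of ?_
    rw [hlb 0]
    exact Submodule.subset_span rfl
  have hl1 : l 1 ∉ Q1 := fun h => by
    refine not_mem_upI hHQ (hV1C.trans hC) (hg0 V1) (hl 1) ?_ (hQ1U h)
    rw [hlb 1]
    exact h1V1
  obtain ⟨Q2, hQ2, hlQ2, hQ2le⟩ := hQUO K 6 4 Q1 (l 1) hQ1 (hl 1) hl1
  have hQ2U : Q2 ≤ upI Q V2 := by
    refine hQ2le.trans (sup_le (hQ1U.trans (upI_mono hV12)) ?_)
    rw [Ideal.span_singleton_le_iff_mem]
    refine mem_upI_of ?_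
    rw [hlb 1]
    exact Submodule.subset_span (Or.inr rfl)
  have hl2 : l 2 ∉ Q2 := fun h => by
    refine not_mem_upI hHQ (hV2C.trans hC) (hg0 V2) (hl 2) ?_ (hQ2U h)
    rw [hlb 2]
    exact h2V2
  obtain ⟨Q3, hQ3, hlQ3, hQ3le⟩ := hQUO K 6 3 Q2 (l 2) hQ2 (hl 2) hl2
  have hQ3U : Q3 ≤ upI Q C := by
    refine hQ3le.trans (sup_le (hQ2U.trans (upI_mono hV2C)) ?_)
    rw [Ideal.span_singleton_le_iff_mem]
    refine mem_upI_of ?_
    rw [hlb 2]
    exact hbC 2
  obtain ⟨k, hk, hMk⟩ := hQ3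
  have hk3 : k = 3 := by omega
  subst hk3
  have e1 := hCHF K 6 3 3 Q3 (by norm_num) hMk 1
  have e2 := hCHF K 6 3 3 Q3 (by norm_num) hMk 2
  have hc1 : Nat.choose 3 1 = 3 := by decide
  have hc2 : Nat.choose 3 2 = 3 := by decide
  have m1 := (hMON K 6 Q3 (upI Q C) 1 hQ3U).2 (by omega)
  have m2 := (hMON K 6 Q3 (upI Q C) 2 hQ3U).2 (by omega)
  -- the generators
  have hQQ3 : Q ≤ Q3 := by
    obtain ⟨k', -, hk'⟩ := hQ
    exact mci_le hk' Q3 (fun f hf hf' => m1 f (hQU C hf) hf')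
      (fun f hf hf' => m2 f (hQU C hf) hf')
  have hUQ3 : upI Q C ≤ Q3 := by
    intro f hf
    have h1 : Ideal.Quotient.mk Q f ∈ Ideal.span (C : Set (PR K 6 ⧸ Q)) := hf
    have h2 : Ideal.span (C : Set (PR K 6 ⧸ Q)) ≤ Q3.map (Ideal.Quotient.mk Q) := by
      rw [Ideal.span_le]
      intro x hx
      obtain ⟨g, hg, hgx⟩ := hC hx
      have hgx' : Ideal.Quotient.mk Q g = x := hgx
      rw [← hgx']
      refine Ideal.mem_map_of_mem _ (m1 g ?_ hg)
      refine mem_upI_of ?_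
      rw [hgx']
      exact hx
    have h3 := h2 h1
    rw [Ideal.mem_map_iff_of_surjective _ Ideal.Quotient.mk_surjective] at h3
    obtain ⟨g, hg, hgf⟩ := h3
    rw [Ideal.Quotient.mk_eq_mk_iff_sub_mem] at hgf
    have h4 : f = g - (g - f) := by ring
    rw [h4]
    exact sub_mem hg (hQQ3 hgf)
  have hfin : upI Q C = Q3 := le_antisymm hUQ3 hQ3U
  rw [hfin]
  exact hMk

end Pool.EGH
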